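import Pool.Agent.helper7.BQ.Spec

/-!
# Project BQ: row INV
-/

set_option autoImplicit false

namespace Pool.Agent.BQ

open Finset

/-- a sum over a complete period does not depend on the starting point -/
lemma INV_blk (P : ℕ) (W : ℤ → ℝ) (hW : ∀ b b' : ℤ, (P : ℤ) ∣ b - b' → W b = W b') (a : ℤ) :
    ∑ i ∈ range P, W (a + i) = ∑ i ∈ range P, W i := by
  have step : ∀ a : ℤ, ∑ i ∈ range P, W (a + 1 + i) = ∑ i ∈ range P, W (a + i) := by
    intro a
    have h1 := Finset.sum_range_succ (fun i : ℕ => W (a + i)) P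
    have h2 := Finset.sum_range_succ' (fun i : ℕ => W (a + i)) P
    have h3 : W (a + (P : ℕ)) = W (a + (0 : ℕ)) := hW _ _ ⟨1, by push_cast; ring⟩
    have h4 : ∑ i ∈ range P, W (a + 1 + i) = ∑ i ∈ range P, W (a + ((i + 1 : ℕ) : ℤ)) := by
      refine Finset.sum_congr rfl fun i _ => ?_
      congr 1
      push_cast
      ring
    rw [h4]
    linarith
  have key : ∀ a : ℤ, ∑ i ∈ range P, W (a + i) = ∑ i ∈ range P, W (0 + i) := by
    intro a
    induction a using Int.induction_on with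
    | zero => rfl
    | succ n ih => rw [step, ih]
    | pred n ih =>
      rw [← ih, ← step (-(n : ℤ) - 1)]
      refine Finset.sum_congr rfl fun i _ => ?_
      congr 1
      ring
  rw [key a]
  refine Finset.sum_congr rfl fun i _ => ?_
  rw [zero_add]

/-- sum over `K` periods -/
lemma INV_blks (P : ℕ) (W : ℤ → ℝ) (hW : ∀ b b' : ℤ, (P : ℤ) ∣ b - b' → W b = W b') (a : ℤ) (K : ℕ) :
    ∑ i ∈ range (K * P), W (a + i) = K * ∑ i ∈ range P, W i := by
  induction K with
  | zero => simp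
  | succ K ih =>
    rw [Nat.succ_mul, Finset.sum_range_add, ih]
    have h1 : ∑ i ∈ range P, W (a + ((K * P + i : ℕ) : ℤ)) = ∑ i ∈ range P, W i := by
      rw [← INV_blk P W hW (a + K * P)]
      refine Finset.sum_congr rfl fun i _ => ?_
      congr 1
      push_cast
      ring
    rw [h1]
    push_cast
    ring

/-- the sum over an interval is at most the number of periods times the sum over a period -/
lemma INV_int (P : ℕ) (hP : 0 < P) (W : ℤ → ℝ) (hW : ∀ b b' : ℤ, (P : ℤ) ∣ b - b' → W b = W b')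
    (hW0 : ∀ b, 0 ≤ W b) (b₀ : ℤ) (B : ℕ) :
    ∑ b ∈ Ioc b₀ (b₀ + B), W b ≤ ((B : ℝ) / P + 1) * ∑ i ∈ range P, W i := by
  set K := B / P + 1 with hK
  have hBK : B ≤ K * P := by
    have h1 := Nat.div_add_mod B P
    have h2 := Nat.mod_lt B hP
    rw [hK, Nat.add_mul, one_mul, mul_comm (B / P) P]
    omega
  have h1 : ∑ b ∈ Ioc b₀ (b₀ + B), W b ≤ ∑ b ∈ Ioc b₀ (b₀ + (K * P : ℕ)), W b := by
    apply Finset.sum_le_sum_of_subset_of_nonneg
    · apply Finset.Ioc_subset_Ioc_right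
      have : (B : ℤ) ≤ ((K * P : ℕ) : ℤ) := by exact_mod_cast hBK
      linarith
    · intro b _ _
      exact hW0 b
  have h2 : ∑ b ∈ Ioc b₀ (b₀ + (K * P : ℕ)), W b = ∑ i ∈ range (K * P), W (b₀ + 1 + i) := by
    symm
    apply Finset.sum_bij (fun (i : ℕ) _ => b₀ + 1 + (i : ℤ))
    · intro i hi
      rw [Finset.mem_range] at hi
      rw [Finset.mem_Ioc]
      have : (i : ℤ) < ((K * P : ℕ) : ℤ) := by exact_mod_cast hi
      constructor <;> linarith [Int.natCast_nonneg i]
    · intro i _ j _ h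
      have h' : (i : ℤ) = (j : ℤ) := by linarith
      exact_mod_cast h'
    · intro b hb
      rw [Finset.mem_Ioc] at hb
      refine ⟨(b - b₀ - 1).toNat, ?_, ?_⟩
      · rw [Finset.mem_range]
        have h3 : ((b - b₀ - 1).toNat : ℤ) = b - b₀ - 1 := Int.toNat_of_nonneg (by linarith)
        have h4 : ((b - b₀ - 1).toNat : ℤ) < ((K * P : ℕ) : ℤ) := by rw [h3]; linarith
        exact_mod_cast h4
      · show b₀ + 1 + (((b - b₀ - 1).toNat : ℕ) : ℤ) = b
        rw [Int.toNat_of_nonneg (by linarith)]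
        ring
    · intro i _
      rfl
  rw [h2, INV_blks P W hW] at h1
  refine h1.trans ?_
  apply mul_le_mul_of_nonneg_right
  · rw [hK]
    push_cast
    have := @Nat.cast_div_le ℝ _ _ _ B P
    linarith
  · exact Finset.sum_nonneg fun i _ => hW0 _

/-- the Chinese remainder theorem for a product of two periodic functions -/
lemma INV_crt (m n : ℕ) (h : Nat.Coprime m n) (hm : 0 < m) (hn : 0 < n) (F f : ℤ → ℝ)
    (hF : ∀ b b' : ℤ, (m : ℤ) ∣ b - b' → F b = F b') (hf : ∀ b b' : ℤ, (n : ℤ) ∣ b - b' → f b = f b') :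
    ∑ b ∈ range (m * n), F (b : ℤ) * f (b : ℤ) = (∑ b ∈ range m, F (b : ℤ)) * ∑ b ∈ range n, f (b : ℤ) := by
  have hFm : ∀ b c : ℕ, b ≡ c [MOD m] → F (b : ℤ) = F (c : ℤ) := by
    intro b c hbc
    apply hF
    exact (Nat.modEq_iff_dvd.1 hbc.symm)
  have hfn : ∀ b c : ℕ, b ≡ c [MOD n] → f (b : ℤ) = f (c : ℤ) := by
    intro b c hbc
    apply hf
    exact (Nat.modEq_iff_dvd.1 hbc.symm)
  rw [Finset.sum_mul_sum, ← Finset.sum_product']
  apply Finset.sum_bij' (fun (b : ℕ) _ => (b % m, b % n))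
    (fun (p : ℕ × ℕ) _ => (Nat.chineseRemainder h p.1 p.2 : ℕ))
  · intro b _
    rw [Finset.mem_product, Finset.mem_range, Finset.mem_range]
    exact ⟨Nat.mod_lt _ hm, Nat.mod_lt _ hn⟩
  · intro p _
    rw [Finset.mem_range]
    exact Nat.chineseRemainder_lt_mul h _ _ hm.ne' hn.ne'
  · intro b hb
    rw [Finset.mem_range] at hb
    have h1 := Nat.chineseRemainder_modEq_unique h (a := b % m) (b := b % n) (z := b)
      (Nat.mod_modEq _ _).symm (Nat.mod_modEq _ _).symm
    have h2 := Nat.chineseRemainder_lt_mul h (b % m) (b % n) hm.ne' hn.ne'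
    exact (Nat.ModEq.eq_of_lt_of_lt h1 hb h2).symm
  · rintro ⟨a, b⟩ hp
    rw [Finset.mem_product, Finset.mem_range, Finset.mem_range] at hp
    have h1 := (Nat.chineseRemainder h a b).2
    apply Prod.ext
    · show (Nat.chineseRemainder h a b : ℕ) % m = a
      exact Eq.trans h1.1 (Nat.mod_eq_of_lt hp.1)
    · show (Nat.chineseRemainder h a b : ℕ) % n = b
      exact Eq.trans h1.2 (Nat.mod_eq_of_lt hp.2)
  · intro b _
    rw [hFm b (b % m) (Nat.mod_modEq _ _).symm, hfn b (b % n) (Nat.mod_modEq _ _).symm]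

/-- the sum over a period of a product of periodic functions with coprime periods -/
lemma INV_prod (s : Finset ℕ) (hs : ∀ l ∈ s, l.Prime) (f : ℕ → ℤ → ℝ)
    (hf : ∀ l ∈ s, ∀ b b' : ℤ, (l : ℤ) ∣ b - b' → f l b = f l b') :
    ∑ b ∈ range (∏ l ∈ s, l), ∏ l ∈ s, f l (b : ℤ) = ∏ l ∈ s, ∑ b ∈ range l, f l (b : ℤ) := by
  classical
  induction s using Finset.induction_on with
  | empty => simp
  | insert l s hl ih =>
    rw [Finset.prod_insert hl, Finset.prod_insert hl]
    have hlp : l.Prime := hs l (Finset.mem_insert_self _ _)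
    have hsp : ∀ l' ∈ s, l'.Prime := fun l' h => hs l' (Finset.mem_insert_of_mem h)
    have hco : Nat.Coprime l (∏ l ∈ s, l) := by
      apply Nat.Coprime.prod_right
      intro l' hl'
      rw [Nat.coprime_primes hlp (hsp l' hl')]
      rintro rfl
      exact hl hl'
    have hpos : 0 < ∏ l ∈ s, l := Finset.prod_pos fun l' hl' => (hsp l' hl').pos
    have h1 := INV_crt l (∏ l ∈ s, l) hco hlp.pos hpos (f l) (fun b => ∏ l ∈ s, f l b)
      (hf l (Finset.mem_insert_self _ _)) (by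
        intro b b' hb
        refine Finset.prod_congr rfl fun l' hl' => ?_
        refine hf l' (Finset.mem_insert_of_mem hl') b b' (dvd_trans ?_ hb)
        exact_mod_cast Finset.dvd_prod_of_mem (fun l => l) hl')
    rw [← ih hsp (fun l' hl' => hf l' (Finset.mem_insert_of_mem hl')), ← h1]
    refine Finset.sum_congr rfl fun b _ => ?_
    rw [Finset.prod_insert hl]

lemma INV_inv (a : ℝ) (ha : 5 / 8 ≤ 1 + a) : (1 + a)⁻¹ ≤ 1 - a + 8 / 5 * a ^ 2 := by
  have h0 : (0 : ℝ) < 1 + a := by linarith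
  rw [inv_le_iff_one_le_mul₀ h0]
  nlinarith [mul_nonneg (sq_nonneg a) (by linarith : (0 : ℝ) ≤ 8 / 5 * (1 + a) - 1)]

lemma INV_sq (w : ℕ) : ∑ l ∈ Icc 1 (w + 1), 1 / (l : ℝ) ^ 2 ≤ 2 - 1 / ((w : ℝ) + 1) := by
  induction w with
  | zero => norm_num
  | succ w ih =>
    rw [Finset.sum_Icc_succ_top (by omega)]
    have h1 : (0 : ℝ) < (w : ℝ) + 1 := by positivity
    have h2 : (0 : ℝ) < (w : ℝ) + 2 := by positivity
    have h3 : 1 / ((w : ℝ) + 2) ^ 2 ≤ 1 / ((w : ℝ) + 1) - 1 / ((w : ℝ) + 2) := by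
      rw [div_sub_div _ _ h1.ne' h2.ne', div_le_div_iff₀ (by positivity) (by positivity)]
      nlinarith
    push_cast
    have h4 : (w : ℝ) + 1 + 1 = (w : ℝ) + 2 := by ring
    rw [h4]
    linarith

/-- the product over the primes `5 ≤ l ≤ w` of `1 + 26 / l ^ 2` is bounded -/
lemma INV_bd (w : ℕ) (s : Finset ℕ) (hs : s ⊆ Icc 1 w) :
    ∏ l ∈ s, (1 + 26 / (l : ℝ) ^ 2) ≤ Real.exp 52 := by
  have h1 : ∏ l ∈ s, (1 + 26 / (l : ℝ) ^ 2) ≤ ∏ l ∈ s, Real.exp (26 / (l : ℝ) ^ 2) := by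
    apply Finset.prod_le_prod
    · intro l _
      positivity
    · intro l _
      have := Real.add_one_le_exp (26 / (l : ℝ) ^ 2)
      linarith
  refine h1.trans ?_
  rw [← Real.exp_sum]
  apply Real.exp_le_exp.2
  have h2 : ∑ l ∈ s, 26 / (l : ℝ) ^ 2 ≤ ∑ l ∈ Icc 1 (w + 1), 26 * (1 / (l : ℝ) ^ 2) := by
    have h3 : ∑ l ∈ s, 26 / (l : ℝ) ^ 2 = ∑ l ∈ s, 26 * (1 / (l : ℝ) ^ 2) :=
      Finset.sum_congr rfl fun l _ => by ring
    rw [h3]
    apply Finset.sum_le_sum_of_subset_of_nonneg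
    · exact hs.trans (Finset.Icc_subset_Icc_right (by omega))
    · intro l _ _
      positivity
  refine h2.trans ?_
  rw [← Finset.mul_sum]
  have h4 := INV_sq w
  have h5 : (0 : ℝ) ≤ 1 / ((w : ℝ) + 1) := by positivity
  linarith

/-- **INV** -/
theorem INV (h1 : AAL_stmt) : INV_stmt := by
  intro ε hε
  have hE : (0 : ℝ) < Real.exp 52 := Real.exp_pos _
  refine ⟨3 * ε / (2 * Real.exp 52), by positivity, ?_⟩
  intro w hw
  set s : Finset ℕ := (Icc 5 w).filter Nat.Prime with hs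
  have hsp : ∀ l ∈ s, l.Prime := fun l hl => (Finset.mem_filter.1 hl).2
  have hs5 : ∀ l ∈ s, 5 ≤ l := fun l hl => (Finset.mem_Icc.1 (Finset.mem_filter.1 hl).1).1
  set P : ℕ := ∏ l ∈ s, l with hP
  have hPpos : 0 < P := Finset.prod_pos fun l hl => (hsp l hl).pos
  refine ⟨P, ?_⟩
  intro B hB b₀
  set W : ℤ → ℝ := fun b => ∏ l ∈ s, (1 + AA l b)⁻¹ with hW
  have hfac : ∀ l ∈ s, ∀ b : ℤ, 5 / 8 ≤ 1 + AA l b := fun l hl b => (h1 l (hsp l hl)).2.2.1 b (hs5 l hl)
  have hW0 : ∀ b, 0 < W b := by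
    intro b
    apply Finset.prod_pos
    intro l hl
    have := hfac l hl b
    exact inv_pos.2 (by linarith)
  have hper : ∀ l ∈ s, ∀ b b' : ℤ, (l : ℤ) ∣ b - b' → (1 + AA l b)⁻¹ = (1 + AA l b')⁻¹ := by
    intro l hl b b' hb
    rw [((h1 l (hsp l hl)).2.2.2.1 b b' hb).1]
  have hWper : ∀ b b' : ℤ, (P : ℤ) ∣ b - b' → W b = W b' := by
    intro b b' hb
    refine Finset.prod_congr rfl fun l hl => ?_
    refine hper l hl b b' (dvd_trans ?_ hb)
    exact_mod_cast Finset.dvd_prod_of_mem (fun l => l) hl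
  -- the sum over a period
  have hsum : ∑ i ∈ range P, W i ≤ P * Real.exp 52 := by
    have e1 : ∑ i ∈ range P, W (i : ℤ) = ∏ l ∈ s, ∑ b ∈ range l, (1 + AA l (b : ℤ))⁻¹ :=
      INV_prod s hsp (fun l b => (1 + AA l b)⁻¹) hper
    rw [e1]
    have e2 : ∏ l ∈ s, ∑ b ∈ range l, (1 + AA l (b : ℤ))⁻¹ ≤ ∏ l ∈ s, ((l : ℝ) * (1 + 26 / (l : ℝ) ^ 2)) := by
      apply Finset.prod_le_prod
      · intro l hl
        apply Finset.sum_nonneg
        intro b _
        have := hfac l hl b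
        exact inv_nonneg.2 (by linarith)
      · intro l hl
        have hl5 : (5 : ℝ) ≤ (l : ℝ) := by exact_mod_cast hs5 l hl
        have hl0 : (0 : ℝ) < (l : ℝ) := by linarith
        obtain ⟨-, hab, -, -, hsm, -, -⟩ := h1 l (hsp l hl)
        have e3 : ∀ b ∈ range l, (1 + AA l (b : ℤ))⁻¹ ≤ 1 - AA l (b : ℤ) + 26 / (l : ℝ) ^ 2 := by
          intro b _
          have g1 := INV_inv _ (hfac l hl b)
          have g2 : AA l (b : ℤ) ^ 2 ≤ (4 / (l : ℝ)) ^ 2 := by
            rw [← sq_abs]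
            exact pow_le_pow_left₀ (abs_nonneg _) (hab b) 2
          have g3 : 8 / 5 * (4 / (l : ℝ)) ^ 2 ≤ 26 / (l : ℝ) ^ 2 := by
            rw [div_pow, ← mul_div_assoc]
            apply div_le_div_of_nonneg_right _ (by positivity)
            norm_num
          linarith
        refine (Finset.sum_le_sum e3).trans ?_
        rw [Finset.sum_add_distrib, Finset.sum_sub_distrib, hsm]
        simp only [Finset.sum_const, Finset.card_range, nsmul_eq_mul, mul_one, sub_zero]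
        linarith [mul_add (l : ℝ) 1 (26 / (l : ℝ) ^ 2)]
    refine e2.trans ?_
    rw [Finset.prod_mul_distrib]
    have e4 : ∏ l ∈ s, (l : ℝ) = (P : ℝ) := by
      rw [hP]
      push_cast
      rfl
    rw [e4]
    apply mul_le_mul_of_nonneg_left _ (Nat.cast_nonneg _)
    apply INV_bd w
    intro l hl
    have := Finset.mem_Icc.1 (Finset.mem_filter.1 hl).1
    rw [Finset.mem_Icc]
    omega
  -- the singular product
  have hsing : ∀ b : ℤ, b % 2 = 1 → b % 3 ≠ 2 → sing w b = 3 * (W b)⁻¹ := by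
    intro b hb2 hb3
    have f1 : sing w b = ∏ l ∈ (Icc 1 w).filter Nat.Prime, (1 + AA l b) := by
      unfold sing
      refine Finset.prod_congr rfl fun l hl => ?_
      exact ((h1 l (Finset.mem_filter.1 hl).2).1 b).symm
    have f2 : (Icc 1 w).filter Nat.Prime = insert 2 (insert 3 s) := by
      ext l
      simp only [Finset.mem_filter, Finset.mem_Icc, Finset.mem_insert, hs]
      constructor
      · rintro ⟨⟨h1, h2⟩, h3⟩
        rcases Nat.lt_or_ge l 5 with h | h
        · interval_cases l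
          · exact absurd h3 (by norm_num)
          · left; rfl
          · right; left; rfl
          · exact absurd h3 (by norm_num)
        · right; right
          exact ⟨⟨h, h2⟩, h3⟩
      · rintro (h | h | h)
        · subst h
          exact ⟨⟨by norm_num, by omega⟩, Nat.prime_two⟩
        · subst h
          exact ⟨⟨by norm_num, by omega⟩, Nat.prime_three⟩
        · exact ⟨⟨by omega, h.1.2⟩, h.2⟩
    have n3 : 3 ∉ s := fun h => by have := hs5 3 h; omega
    have n2 : 2 ∉ insert 3 s := by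
      rw [Finset.mem_insert, not_or]
      exact ⟨by norm_num, fun h => by have := hs5 2 h; omega⟩
    rw [f1, f2, Finset.prod_insert n2, Finset.prod_insert n3]
    obtain ⟨-, -, -, -, -, h22, -⟩ := h1 2 Nat.prime_two
    obtain ⟨-, -, -, -, -, -, h33⟩ := h1 3 Nat.prime_three
    rw [(h22 rfl b).1 hb2, (h33 rfl b).2 hb3, hW]
    simp only [Finset.prod_inv_distrib, inv_inv]
    ring
  -- Markov
  have hcard : (#((Ioc b₀ (b₀ + B)).filter fun b => b % 2 = 1 ∧ b % 3 ≠ 2 ∧
      sing w b < 3 * ε / (2 * Real.exp 52)) : ℝ) ≤ ε / (2 * Real.exp 52) * ∑ b ∈ Ioc b₀ (b₀ + B), W b := by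
    have g0 : (#((Ioc b₀ (b₀ + B)).filter fun b => b % 2 = 1 ∧ b % 3 ≠ 2 ∧
      sing w b < 3 * ε / (2 * Real.exp 52)) : ℝ) = ∑ b ∈ (Ioc b₀ (b₀ + B)).filter fun b => b % 2 = 1 ∧ b % 3 ≠ 2 ∧
      sing w b < 3 * ε / (2 * Real.exp 52), (1 : ℝ) := by simp
    rw [g0, Finset.mul_sum]
    refine (Finset.sum_le_sum (g := fun b => ε / (2 * Real.exp 52) * W b) ?_).trans ?_
    · intro b hb
      rw [Finset.mem_filter] at hb
      obtain ⟨-, hb2, hb3, hb4⟩ := hb
      rw [hsing b hb2 hb3] at hb4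
      have hWb := hW0 b
      have g1 : (W b)⁻¹ < ε / (2 * Real.exp 52) := by
        have : 3 * ε / (2 * Real.exp 52) = 3 * (ε / (2 * Real.exp 52)) := by ring
        rw [this] at hb4
        linarith
      show (1 : ℝ) ≤ ε / (2 * Real.exp 52) * W b
      have g2 := mul_le_mul_of_nonneg_right g1.le hWb.le
      rwa [inv_mul_cancel₀ hWb.ne'] at g2
    · apply Finset.sum_le_sum_of_subset_of_nonneg (Finset.filter_subset _ _)
      intro b _ _
      have := (hW0 b).le
      positivity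
  refine hcard.trans ?_
  have hint := INV_int P hPpos W hWper (fun b => (hW0 b).le) b₀ B
  have hPR : (0 : ℝ) < (P : ℝ) := by exact_mod_cast hPpos
  have hBP : (P : ℝ) ≤ (B : ℝ) := by exact_mod_cast hB
  have h5 : ((B : ℝ) / P + 1) * ∑ i ∈ range P, W i ≤ 2 * B * Real.exp 52 := by
    calc ((B : ℝ) / P + 1) * ∑ i ∈ range P, W i ≤ ((B : ℝ) / P + 1) * (P * Real.exp 52) :=
          mul_le_mul_of_nonneg_left hsum (by positivity)
      _ = (B + P) * Real.exp 52 := by field_simp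
      _ ≤ 2 * B * Real.exp 52 := by
          apply mul_le_mul_of_nonneg_right _ hE.le
          linarith
  calc ε / (2 * Real.exp 52) * ∑ b ∈ Ioc b₀ (b₀ + B), W b ≤ ε / (2 * Real.exp 52) * (2 * B * Real.exp 52) :=
        mul_le_mul_of_nonneg_left (hint.trans h5) (by positivity)
    _ = ε * B := by field_simp

end Pool.Agent.BQ
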